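import Pool.Agent.Lib.MP_b4fd03_gt.Flip

namespace Pool.Agent.Results.MP_b4fd03_gt.OneSided

open Pool.Agent.Lib.MP_b4fd03_gt

theorem result : ∀ (W : List (K × ℕ)) (c : Bool), Run not [] (W.flatMap pre1) [] →
    (∀ (A C : List (K × ℕ)) (s t : List Bool), W = A ++ (K.H (!c), s.length) :: C →
      ¬Run not [] (A.flatMap pre1) (s ++ c :: t)) →
    (∃ (A C : List (K × ℕ)) (s t : List Bool), W = A ++ (K.H c, s.length) :: C ∧
      Run not [] (A.flatMap pre1) (s ++ (!c) :: t)) →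
    (∀ (n : ℕ) (u v : List (Gen Bool)) (M : List (Step Bool)), Mov id [] [] n u M v →
      M.map Step.erase = exec [] [] W → ∃ b : Bool, ∀ i : ℕ, Gen.L i b ∉ u) →
    ∃ (n m : ℕ) (M₁ M₂ : List (Step Bool)) (p q y z : List (Gen Bool)) (s t : List Bool),
      Mov not [] [] n (W.flatMap pre1) M₁ (p ++ [Gen.R s.length, Gen.L s.length c] ++ q) ∧
      Run not [] p (s ++ (!c) :: t) ∧ y.map Gen.erase = (p ++ q).map Gen.erase ∧
      Mov not [] [] m y M₂ z ∧ z.map Gen.erase = W.flatMap post1 ∧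
      Same [] [] ((W.flatMap pre1).map Gen.erase) (W.flatMap post1) (exec [] [] W)
        (M₁.map Step.erase ++ Step.mk (p.map Gen.erase) [Gen.R s.length, Gen.L s.length ()] []
          (q.map Gen.erase) :: M₂.map Step.erase) := by
  intro W c hW h1 h2 hk
  obtain ⟨n, m, M₁, M₂, p, q, y, z, s, t, k1, k2, k3, k4, k5, k6⟩ := one_sided (c := c) hW
    (fun ⟨A, C, s, t, e, h⟩ => h1 A C s t e (by rwa [Bool.not_not] at h)) h2 hk
  exact ⟨n, m, M₁, M₂, p, q, y, z, s, t, k1, k2, k3, k4, k6, k5⟩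

end Pool.Agent.Results.MP_b4fd03_gt.OneSided
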