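import Pool.Agent.Lib.MP_b4fd03_gt.Plat

/-! Every Legendrian two-bridge front with blocks of length at least two that has switches of both
kinds is obtained from the standard unknot by coherent one-handles, one incoherent one-handle and
Legendrian Reidemeister moves. -/

namespace Pool.Agent.Results.MP_b4fd03_gt.TwoBridge

open Pool.Agent.Lib.MP_b4fd03_gt in
theorem result (ns : List ℕ) (h2 : ∀ n ∈ ns, 2 ≤ n) (hk : 2 ≤ ns.length)
    (hno : Even ns.length ∨ ∃ j, 3 ≤ ns.getD (2 * j + 1) 0) :
    ∃ (m : ℕ) (p q : List (Gen Bool)) (s t : List Bool) (b : Bool),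
      m + 2 * ns.length = ns.sum ∧
      Cob not m [.L 0 true, .R 0] (p ++ [.R s.length, .L s.length b] ++ q) ∧
      Run not [] p (s ++ (!b) :: t) ∧
      Cob id 0 ((p ++ q).map Gen.erase) (twoBridge ns) :=
  main ns h2 hk hno

end Pool.Agent.Results.MP_b4fd03_gt.TwoBridge
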